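import Pool.Agent.Lib.MP_4e64b4_nt.Real

set_option autoImplicit false

open NumberField Finset Pool.Agent.Lib.MP_4e64b4_nt
open scoped IntermediateField

namespace Pool.Agent.Results.MP_4e64b4_nt.Average

open Classical in
theorem result (A : Finset ℤ) : ∃ C : ℝ, ∀ θ : ℕ → ℂ,
    (∀ t : ℕ, (θ t - t) * ∏ a ∈ A, (θ t - a) = 1) → ∀ T Y : ℕ, 2 ≤ T →
      ∑ t ∈ Icc 1 T, ∑ p ∈ Icc 3 Y with p.Prime ∧ ¬ (IsTotallyReal ℚ⟮θ t⟯ ∧
        Module.finrank ℚ ℚ⟮θ t⟯ = A.card + 1 ∧ Subsingleton (XS ℚ⟮θ t⟯ p)), Real.log p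
        ≤ C * (T * Real.log T + Y ^ 2) := by
  obtain ⟨C, hC⟩ := average A
  obtain ⟨N, hN⟩ := Filter.eventually_atTop.mp (ev_real A)
  refine ⟨C + N, fun θ hθ T Y hT => ?_⟩
  have h0 : ∀ t : ℕ, Polynomial.aeval (θ t) (fP A t) = 0 := fun t => by
    simpa [fP, gP, map_prod, sub_eq_zero] using hθ t
  have h1 := hC θ h0 T Y hT
  have h2 : ∑ t ∈ Icc 1 T, (if t ∈ range N then (Y : ℝ) ^ 2 else 0) ≤ N * Y ^ 2 := by
    rw [sum_ite_mem, sum_const, nsmul_eq_mul]
    gcongr
    exact (card_le_card inter_subset_right).trans_eq (card_range N)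
  have h3 : 0 ≤ N * (T * Real.log T) := by positivity
  refine le_trans (sum_le_sum fun t _ => ?_)
    ((sum_add_distrib.trans_le (add_le_add h1 h2)).trans (by linarith))
  have h4 := fun p : ℕ => Real.log_natCast_nonneg p
  split_ifs with h
  · refine le_add_of_nonneg_of_le (sum_nonneg fun p _ => h4 p) ?_
    refine (sum_le_card_nsmul _ _ (Y : ℝ) fun p hp => ?_).trans ?_
    · exact (Real.log_le_self p.cast_nonneg).trans
        (Nat.cast_le.mpr (mem_Icc.mp (mem_filter.mp hp).1).2)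
    · rw [nsmul_eq_mul, sq]
      gcongr
      exact (card_filter_le _ _).trans (by simp)
  · rw [add_zero]
    refine sum_le_sum_of_subset_of_nonneg (fun p hp => ?_) fun p _ _ => h4 p
    simp only [mem_filter, mem_Icc] at hp ⊢
    have h5 := hN t (by simpa using h) _ (h0 t)
    have hint : IsIntegral ℚ (θ t) := IsIntegral.tower_top (R := ℤ) ⟨_, monic_fP, h0 t⟩
    have := IntermediateField.adjoin.finiteDimensional hint
    have : NumberField ℚ⟮θ t⟯ := NumberField.of_module_finite ℚ _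
    exact ⟨by omega, hp.2.1, by omega, fun e => hp.2.2 ⟨h5.1, h5.2.2, subsingleton_XS e⟩⟩

end Pool.Agent.Results.MP_4e64b4_nt.Average
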