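import Pool.Agent.Lib.Mu46.Final

set_option autoImplicit false

open NumberField Pool.Agent.Lib.MP_4e64b4_nt
open scoped IntermediateField

namespace Pool.Agent.Results.MP_4e64b4_nt.CountAll

theorem result (p n : ℕ) (hp : p.Prime) (hodd : p ≠ 2) (hn : 3 ≤ n) :
    ∀ᶠ X : ℕ in Filter.atTop, X ≤ {E : IntermediateField ℚ ℂ |
      IsTotallyReal E ∧ Subsingleton (XS E p) ∧
      (∃ θ : ℂ, ℚ⟮θ⟯ = E ∧ (minpoly ℚ θ).natDegree = n ∧
        Nonempty ((minpoly ℚ θ).Gal ≃* Equiv.Perm (Fin n))) ∧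
      ∃ _ : NumberField E, |discr E| ≤ X}.ncard ^ (11 * n ^ 3) :=
  Pool.Agent.Lib.Mu14.All.many p n hp hodd hn

end Pool.Agent.Results.MP_4e64b4_nt.CountAll
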